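import Pool.Agent.Helper98.GX.St2

/-!
# Project GX, module GRO

Every linear system is contained in a multiple of the hyperplane class.
-/

set_option autoImplicit false

open scoped BigOperators

namespace Pool.Agent.Helper36.GX

open Pool.Agent.Helper98.GX
open Pool.Agent.Helper53.CX (DivVal LinSys IsNefCartier)

variable {K : Type} [Field K] [Algebra ℂ K]

/-- `f` is zero or a section of the `d`-th multiple of the hyperplane class. -/
private def Sec (G : LinSys K) (d : ℕ) (f : K) : Prop :=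
  f = 0 ∨ ∀ v : DivVal K, 0 ≤ v.ord f + (d : ℤ) * G.div v

private lemma ord_one (v : DivVal K) : v.ord 1 = 0 := by
  have h := v.ord_mul 1 1 one_ne_zero one_ne_zero
  rw [mul_one] at h
  omega

private lemma ord_const (v : DivVal K) (c : ℂ) (hc : algebraMap ℂ K c ≠ 0) :
    0 ≤ v.ord (algebraMap ℂ K c) := by
  obtain ⟨R, -, hR, -⟩ := v.exists_model
  exact hR _ (R.algebraMap_mem c) hc

private lemma sec_add {G : LinSys K} {d : ℕ} {f g : K} (hf : Sec G d f) (hg : Sec G d g) :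
    Sec G d (f + g) := by
  rcases eq_or_ne f 0 with h0 | h0
  · rw [h0, zero_add]; exact hg
  rcases eq_or_ne g 0 with h1 | h1
  · rw [h1, add_zero]; exact hf
  rcases eq_or_ne (f + g) 0 with h2 | h2
  · exact Or.inl h2
  refine Or.inr fun v => ?_
  have a := (hf.resolve_left h0) v
  have b := (hg.resolve_left h1) v
  have c := v.ord_add f g h0 h1 h2
  rcases min_le_iff.1 c with c | c <;> linarith

private lemma sec_mul {G : LinSys K} {d e : ℕ} {f g : K} (hf : Sec G d f) (hg : Sec G e g) :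
    Sec G (d + e) (f * g) := by
  rcases eq_or_ne f 0 with h0 | h0
  · exact Or.inl (by rw [h0, zero_mul])
  rcases eq_or_ne g 0 with h1 | h1
  · exact Or.inl (by rw [h1, mul_zero])
  refine Or.inr fun v => ?_
  have a := (hf.resolve_left h0) v
  have b := (hg.resolve_left h1) v
  rw [v.ord_mul f g h0 h1]
  push_cast
  linarith

private lemma sec_const (G : LinSys K) (c : ℂ) : Sec G 0 (algebraMap ℂ K c) := by
  rcases eq_or_ne (algebraMap ℂ K c) 0 with h0 | h0
  · exact Or.inl h0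
  refine Or.inr fun v => ?_
  have := ord_const v c h0
  simpa using this

private lemma sec_gen {G : LinSys K} {g : K} (hg : g ∈ G.gens) : Sec G 1 g := by
  refine Or.inr fun v => ?_
  have : - v.ord g ≤ G.div v := Finset.le_sup' (fun f => - v.ord f) hg
  push_cast
  linarith

private lemma sec_pow {G : LinSys K} {g : K} (hg : g ∈ G.gens) (d : ℕ) : Sec G d (g ^ d) := by
  induction d with
  | zero =>
    refine Or.inr fun v => ?_
    rw [pow_zero, ord_one]
    simp
  | succ d ih =>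
    rw [pow_succ]
    exact sec_mul ih (sec_gen hg)

private lemma sec_chart {G : LinSys K} {g0 : K} (hg0 : g0 ∈ G.gens) {a : K}
    (ha : a ∈ chart G g0) : ∃ d : ℕ, ∀ e, d ≤ e → Sec G e (a * g0 ^ e) := by
  have h0 : g0 ≠ 0 := G.ne_zero g0 hg0
  refine Algebra.adjoin_induction (p := fun a _ => ∃ d : ℕ, ∀ e, d ≤ e → Sec G e (a * g0 ^ e))
    ?_ ?_ ?_ ?_ ha
  · rintro x ⟨g, hg, rfl⟩
    refine ⟨1, fun e he => ?_⟩
    obtain ⟨e, rfl⟩ := Nat.exists_eq_add_of_le he
    have : g / g0 * g0 ^ (1 + e) = g * g0 ^ e := by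
      rw [pow_add, pow_one]
      field_simp
    rw [this]
    exact sec_mul (sec_gen hg) (sec_pow hg0 e)
  · intro c
    refine ⟨0, fun e _ => ?_⟩
    have := sec_mul (sec_const G c) (sec_pow hg0 e)
    rwa [zero_add] at this
  · rintro x y _ _ ⟨d1, h1⟩ ⟨d2, h2⟩
    refine ⟨max d1 d2, fun e he => ?_⟩
    rw [add_mul]
    exact sec_add (h1 e ((le_max_left _ _).trans he)) (h2 e ((le_max_right _ _).trans he))
  · rintro x y _ _ ⟨d1, h1⟩ ⟨d2, h2⟩
    refine ⟨d1 + d2, fun e he => ?_⟩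
    obtain ⟨k, rfl⟩ := Nat.exists_eq_add_of_le he
    have : x * y * g0 ^ (d1 + d2 + k) = (x * g0 ^ d1) * (y * g0 ^ (d2 + k)) := by ring
    rw [this, add_assoc]
    exact sec_mul (h1 d1 le_rfl) (h2 (d2 + k) (Nat.le_add_right _ _))

private lemma one_elt (V : NormalProj K) {h : K} (hh : h ≠ 0) :
    ∃ (d : ℕ) (b : K), b ≠ 0 ∧ (∀ v : DivVal K, 0 ≤ v.ord b + (d : ℤ) * V.G.div v) ∧
      ∀ v : DivVal K, 0 ≤ v.ord b + v.ord h + (d : ℤ) * V.G.div v := by
  obtain ⟨g0, hg0⟩ := V.G.nonempty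
  have h0 : g0 ≠ 0 := V.G.ne_zero g0 hg0
  obtain ⟨a, ha, b, hb, hb0, hab⟩ := V.frac g0 hg0 h
  obtain ⟨d1, h1⟩ := sec_chart hg0 ha
  obtain ⟨d2, h2⟩ := sec_chart hg0 hb
  have hB : b * g0 ^ (d1 + d2) ≠ 0 := mul_ne_zero hb0 (pow_ne_zero _ h0)
  have s1 := h1 (d1 + d2) (Nat.le_add_right _ _)
  have s2 := h2 (d1 + d2) (Nat.le_add_left _ _)
  have e1 : a * g0 ^ (d1 + d2) = (b * g0 ^ (d1 + d2)) * h := by
    rw [← hab]; ring
  rw [e1] at s1
  refine ⟨d1 + d2, b * g0 ^ (d1 + d2), hB, s2.resolve_left hB, fun v => ?_⟩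
  have := (s1.resolve_left (mul_ne_zero hB hh)) v
  rwa [v.ord_mul _ _ hB hh] at this

private lemma fin_elts (V : NormalProj K) (s : Finset K) (hs : ∀ h ∈ s, h ≠ 0) :
    ∃ (c : ℕ) (ψ : K), ψ ≠ 0 ∧ (∀ v : DivVal K, 0 ≤ v.ord ψ + (c : ℤ) * V.G.div v) ∧
      ∀ h ∈ s, ∀ v : DivVal K, 0 ≤ v.ord ψ + v.ord h + (c : ℤ) * V.G.div v := by
  classical
  induction s using Finset.induction_on with
  | empty =>
    refine ⟨0, 1, one_ne_zero, fun v => ?_, fun h hh => absurd hh (Finset.notMem_empty h)⟩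
    rw [ord_one]; simp
  | insert h s _ ih =>
    obtain ⟨c, ψ, hψ, h1, h2⟩ := ih fun x hx => hs x (Finset.mem_insert_of_mem hx)
    obtain ⟨d, b, hb, h3, h4⟩ := one_elt V (hs h (Finset.mem_insert_self h s))
    refine ⟨c + d, ψ * b, mul_ne_zero hψ hb, fun v => ?_, fun x hx v => ?_⟩
    · rw [v.ord_mul _ _ hψ hb]
      have a := h1 v
      have b := h3 v
      push_cast
      linarith
    · rw [v.ord_mul _ _ hψ hb]
      rcases Finset.mem_insert.1 hx with rfl | hx
      · have a := h1 v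
        have b := h4 v
        push_cast
        linarith
      · have a := h2 x hx v
        have b := h3 v
        push_cast
        linarith

theorem hGRO : StGRO := by
  intro K _ _ V F
  obtain ⟨c, ψ, hψ, -, h2⟩ := fin_elts V F.gens F.ne_zero
  refine ⟨c, ψ, hψ, fun v => ?_⟩
  refine Finset.sup'_le F.nonempty _ fun h hh => ?_
  have := h2 h hh v
  linarith

end Pool.Agent.Helper36.GX
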